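import Pool.Agent.Lib.MP_e97e2b_nt.RT.Ex3

/-!
The Rasmussen-Tamagawa conjecture outside a very thin set of primes, for every number field and
every dimension.
-/

open Pool.Agent.RT

theorem Pool.Agent.Results.MP_e97e2b_nt.AlmostAll.result
    (K : IntermediateField ℚ ℂ) [FiniteDimensional ℚ K] (g : ℕ) (hg : 1 ≤ g) :
    ∃ B : ℕ, ∀ X k : ℕ, {l : ℕ | l.Prime ∧ X < l ∧ l ≤ X ^ 2 ^ k ∧
      ∃ (n : ℕ) (J : Set (MvPolynomial (Fin n) K)) (p : (Fin g ⊕ Fin g → ℝ) ≃ₗ[ℝ] (Fin g → ℂ))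
        (u : (Fin g → ℂ) → Fin n → ℂ), Unif J p u ∧ Heavenly K p u l}.encard ≤ (B * k : ℕ) :=
  ex_all K g hg
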