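import Pool.Agent.Lib.MP_e97e2b_nt.Ln.Main
import Pool.Agent.Lib.MP_e97e2b_nt.Ln.Cyc

namespace Pool.Agent.Results.MP_e97e2b_nt.CongruenceClass

open NumberField IsDedekindDomain Pool.Agent.Lib.MP_e97e2b_nt

theorem result (K : Type) [Field K] [NumberField K] (m a p0 : ℕ) (hm : 0 < m) (ha : a.Coprime m)
    (hK : ∀ p : ℕ, p.Prime → p0 < p → p ≡ a [MOD m] →
      ∃ v : HeightOneSpectrum (𝓞 K), Ideal.absNorm v.asIdeal = p) :
    ∃ l0 : ℕ, ∀ l : ℕ, l.Prime → l0 < l →
      ∀ W : WeierstrassCurve K, W.IsElliptic → ¬ Heavenly W l :=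
  Ln.main K m a p0 hm ha hK

/-- The hypothesis holds for every subfield of a cyclotomic field. -/
theorem cyclotomic_case (K : Type) [Field K] [NumberField K] (m : ℕ) (hm : 0 < m)
    (ι : K →+* CyclotomicField m ℚ) :
    ∃ l0 : ℕ, ∀ l : ℕ, l.Prime → l0 < l →
      ∀ W : WeierstrassCurve K, W.IsElliptic → ¬ Heavenly W l :=
  result K m 1 m hm (Nat.coprime_one_left m) (Ln.cyc_norm K m hm ι)

/-- The hypothesis holds for every pure field of odd degree. -/
theorem pure_case (K : Type) [Field K] [NumberField K] (hodd : Odd (Module.finrank ℚ K)) (θ : K)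
    (b : ℤ) (hθ : θ ^ Module.finrank ℚ K = b) (h : IntermediateField.adjoin ℚ {θ} = ⊤) :
    ∃ l0 : ℕ, ∀ l : ℕ, l.Prime → l0 < l →
      ∀ W : WeierstrassCurve K, W.IsElliptic → ¬ Heavenly W l := by
  obtain ⟨p0, h0⟩ := Ln.pure_norm K θ b hθ h
  exact result K _ 2 p0 Module.finrank_pos (Nat.coprime_two_left.2 hodd) h0

end Pool.Agent.Results.MP_e97e2b_nt.CongruenceClass
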