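import Pool.Agent.Lib.MP_e97e2b_nt.RT.Main

/-!
The Rasmussen-Tamagawa conjecture for `(2 g - 1) [K : ℚ] < 8`.
-/

open Pool.Agent.RT

theorem Pool.Agent.Results.MP_e97e2b_nt.LowDimension.result
    (K : IntermediateField ℚ ℂ) [FiniteDimensional ℚ K] (g : ℕ) (hg : 1 ≤ g)
    (hd : (2 * g - 1) * Module.finrank ℚ K < 8) :
    ∃ l₀ : ℕ, ∀ l : ℕ, l.Prime → l₀ < l →
      ∀ (n : ℕ) (J : Set (MvPolynomial (Fin n) K)) (p : (Fin g ⊕ Fin g → ℝ) ≃ₗ[ℝ] (Fin g → ℂ))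
        (u : (Fin g → ℂ) → Fin n → ℂ), Unif J p u → ¬ Heavenly K p u l :=
  rt_main K g hg hd
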