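import Pool.Agent.Lib.MP_e97e2b_nt.RM.Mn2

/-!
The Rasmussen-Tamagawa conjecture for abelian varieties of type `GL(2)`, when
`[K : ℚ] g < 4 (g + 1)`.
-/

open Pool.Agent.RT

theorem Pool.Agent.Results.MP_e97e2b_nt.TypeGL2.result
    (K : IntermediateField ℚ ℂ) [FiniteDimensional ℚ K] (g : ℕ) (hg : 1 ≤ g)
    (hd : Module.finrank ℚ K * g < 4 * (g + 1)) :
    ∃ l₀ : ℕ, ∀ l : ℕ, l.Prime → l₀ < l →
      ∀ (n : ℕ) (J : Set (MvPolynomial (Fin n) K)) (p : (Fin g ⊕ Fin g → ℝ) ≃ₗ[ℝ] (Fin g → ℂ))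
        (u : (Fin g → ℂ) → Fin n → ℂ) (L : (Fin g → ℂ) →ₗ[ℂ] (Fin g → ℂ)),
        Unif J p u → GL2Type K p u L → ¬ Heavenly K p u l :=
  g2_main K g hg hd
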